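import Pool.Agent.H26.Lib.R_seed8.W353.PV.Ord
import Pool.Agent.H26.Lib.R_seed8.W353.SN.Lim
import Pool.Agent.H26.Lib.R_seed8.W353.SN.Big
import Pool.Agent.H26.Lib.R_seed8.W353.TP.Deg

/-!
# The edge of the L-functions of a smooth projective variety over extension fields: definitions

`X` is a smooth projective variety over a number field `K`, for example over `K = ℚ`, and `i` an
integer.  For every number field `F ⊇ K` the variety `X_F`, seen as a variety over `ℚ`, is smooth and
projective; `L(H^i(X_F), s)` is an Euler product over the primes of `F`.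
-/

set_option autoImplicit false

namespace Pool.Agent.W353.EF

open NumberField IsDedekindDomain Filter Topology Polynomial IntermediateField
open scoped TensorProduct

section
variable {K : Type} [Field K] {n : ℕ}

/-- The set `X` of homogeneous polynomials over `𝓞_K` in `n` variables gives a projective variety over
`K`.  For a field `κ` with `q` elements and a homomorphism `𝓞_K → κ` this is `(q - 1)` times the number
of the points of `X` with coordinates in `κ`: the number of the nonzero solutions of the equations. -/
noncomputable def cone (X : Set (MvPolynomial (Fin n) (𝓞 K))) {κ : Type} [Field κ]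
    (φ : 𝓞 K →+* κ) : ℕ :=
  Nat.card {u : Fin n → κ // u ≠ 0 ∧ ∀ f ∈ X, MvPolynomial.eval₂ φ u f = 0}

/-- `α_1, …, α_N` are the eigenvalues of the geometric Frobenius at the prime `v` of `F ⊇ K` on
`H^i(X)`, for a variety `X` of dimension `d`: there are finite multisets `β_k` of complex numbers of
absolute value `q_v^{k/2}`, `k = 0, …, 2d`, with `β_i = {α_1, …, α_N}`, such that for every finite
extension `κ` of the residue field of `v`, of degree `e`, the number of the points of `X` with
coordinates in `κ` is `∑ (-1)^k ∑_{z ∈ β_k} z^e`.  By the theorem of Deligne such `β_k` exist at almost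
all primes if `X` is smooth, with `N` the `i`-th Betti number of `X`; they are unique. -/
def IsFrobenius (X : Set (MvPolynomial (Fin n) (𝓞 K))) (d i : ℕ) {F : Type} [Field F]
    [NumberField F] [Algebra K F] (v : HeightOneSpectrum (𝓞 F)) {N : ℕ} (α : Fin N → ℂ) : Prop :=
  ∃ β : ℕ → Multiset ℂ, β i = Finset.univ.val.map α ∧
    (∀ k, ∀ z ∈ β k, ‖z‖ = (Ideal.absNorm v.asIdeal : ℝ) ^ ((k : ℝ) / 2)) ∧
    ∀ (κ : Type) [Field κ] [Finite κ] (φ : 𝓞 F →+* κ) (e : ℕ), RingHom.ker φ = v.asIdeal →
      Nat.card κ = Ideal.absNorm v.asIdeal ^ e →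
      (cone X (φ.comp (algebraMap (𝓞 K) (𝓞 F))) : ℂ) =
        ((Ideal.absNorm v.asIdeal : ℂ) ^ e - 1) *
          ∑ k ∈ Finset.range (2 * d + 1), (-1 : ℂ) ^ k * ((β k).map (fun z => z ^ e)).sum

/-- The polynomials `B v` are the Euler factors of `L(H^i(X_F), s)`, `B_v(z) = ∏ (1 - α_j z)` for
almost all primes `v` of `F`; at the other primes `B v` is an arbitrary polynomial, and no factor
`1 / B_v(q_v^{-s})` has a pole at `s = i/2 + 1`. -/
def IsEulerSystem (X : Set (MvPolynomial (Fin n) (𝓞 K))) (d i N : ℕ) {F : Type} [Field F]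
    [NumberField F] [Algebra K F] (B : HeightOneSpectrum (𝓞 F) → ℂ[X]) : Prop :=
  (∀ᶠ v in cofinite, ∃ α : Fin N → ℂ, IsFrobenius X d i v α ∧
    ∀ z : ℂ, (B v).eval z = ∏ j, (1 - α j * z)) ∧
  ∀ v, (B v).eval ((Ideal.absNorm v.asIdeal : ℂ) ^ (-((i : ℂ) / 2 + 1))) ≠ 0

/-- The Euler product `∏_v B_v(q_v^{-s})⁻¹`. -/
noncomputable def LFun {F : Type} [Field F] [NumberField F]
    (B : HeightOneSpectrum (𝓞 F) → ℂ[X]) (s : ℂ) : ℂ :=
  ∏' v : HeightOneSpectrum (𝓞 F), ((B v).eval ((Ideal.absNorm v.asIdeal : ℂ) ^ (-s)))⁻¹

/-- `log |L(i/2 + 1 + ε)| / log(1/ε)`; for a function with a meromorphic continuation of order `m` at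
`i/2 + 1` it tends to `-m` as `ε → 0+`. -/
noncomputable def size {F : Type} [Field F] [NumberField F] (i : ℕ)
    (B : HeightOneSpectrum (𝓞 F) → ℂ[X]) (ε : ℝ) : ℝ :=
  Real.log ‖LFun B ((i : ℂ) / 2 + 1 + ε)‖ / Real.log (1 / ε)

/-- The Euler product has a meromorphic continuation to a neighbourhood of `i/2 + 1`, of order `m` at
`i/2 + 1`. -/
def HasOrder {F : Type} [Field F] [NumberField F] (i : ℕ)
    (B : HeightOneSpectrum (𝓞 F) → ℂ[X]) (m : ℤ) : Prop :=
  ∃ Λ : ℂ → ℂ, MeromorphicAt Λ ((i : ℂ) / 2 + 1) ∧
    (∀ᶠ s in 𝓝 ((i : ℂ) / 2 + 1), (i : ℝ) / 2 + 1 < s.re → Λ s = LFun B s) ∧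
    meromorphicOrderAt Λ ((i : ℂ) / 2 + 1) = m

/-- `F` is a number field, and `L(H^i(X_F), s)` has a meromorphic continuation to a neighbourhood of
`i/2 + 1`, of order `m` at `i/2 + 1`.  It vanishes at `i/2 + 1` if and only if `m > 0`. -/
def OrderOver (X : Set (MvPolynomial (Fin n) (𝓞 K))) (d i N : ℕ) (F : Type) [Field F]
    [Algebra K F] (m : ℤ) : Prop :=
  ∃ (_ : NumberField F) (B : HeightOneSpectrum (𝓞 F) → ℂ[X]),
    IsEulerSystem X d i N B ∧ HasOrder i B m

end

section
variable (K F : Type) [Field K] [Field F] [Algebra K F]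

/-- The permutation `i ↦ σ ∘ i` of the embeddings over `K` of `F` into the algebraic closure of `K`,
for `σ` in the absolute Galois group of `K`. -/
noncomputable def perm :
    Gal(AlgebraicClosure K/K) →* Equiv.Perm (F →ₐ[K] AlgebraicClosure K) where
  toFun σ :=
    { toFun := fun i => (σ : AlgebraicClosure K →ₐ[K] AlgebraicClosure K).comp i
      invFun := fun i => ((σ⁻¹ : Gal(AlgebraicClosure K/K)) :
        AlgebraicClosure K →ₐ[K] AlgebraicClosure K).comp i
      left_inv := fun i => AlgHom.ext fun x => σ.symm_apply_apply (i x)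
      right_inv := fun i => AlgHom.ext fun x => σ.apply_symm_apply (i x) }
  map_one' := Equiv.ext fun _ => AlgHom.ext fun _ => rfl
  map_mul' _ _ := Equiv.ext fun _ => AlgHom.ext fun _ => rfl

/-- The proportion of the permutations without fixed point in the group of all permutations of the
embeddings of `F` given by the absolute Galois group of `K`, the Galois group of the normal closure
of `F/K`. -/
noncomputable def derangements : ℝ :=
  (Nat.card {g : (perm K F).range // ∀ i, g.1 i ≠ i} : ℝ) / Nat.card (perm K F).range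

/-- The closure of `F` over `K`: the compositum of the fields conjugate to `F`. -/
noncomputable def closure : IntermediateField K (AlgebraicClosure K) :=
  ⨆ i : F →ₐ[K] AlgebraicClosure K, i.fieldRange

/-- The Young subfield for an equivalence relation `r` on the embeddings: the elements fixed by all
`σ` mapping every embedding of `F` to an equivalent one. -/
noncomputable def youngField (r : Setoid (F →ₐ[K] AlgebraicClosure K)) :
    IntermediateField K (AlgebraicClosure K) :=
  IntermediateField.fixedField
    ({ carrier := {σ | ∀ i, r i (perm K F σ i)}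
       one_mem' := fun i => by rw [map_one]; exact r.refl i
       mul_mem' := fun {σ ρ} hσ hρ i => by
        rw [map_mul]
        exact r.trans (hρ i) (hσ (perm K F ρ i))
       inv_mem' := fun {σ} hσ i => by
        have h : r ((perm K F σ)⁻¹ i) (perm K F σ ((perm K F σ)⁻¹ i)) := hσ _
        have e : perm K F σ ((perm K F σ)⁻¹ i) = i := (perm K F σ).apply_symm_apply i
        rw [e] at h
        rw [map_inv]
        exact r.symm h } : Subgroup Gal(AlgebraicClosure K/K))

open Classical in
/-- The quadratic field of `F`: the elements fixed by all `σ` giving an even permutation of the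
embeddings of `F`; this is `K(√disc F)`. -/
noncomputable def quadField [NumberField K] [NumberField F] :
    IntermediateField K (AlgebraicClosure K) :=
  IntermediateField.fixedField (Equiv.Perm.sign.comp (perm K F)).ker

end

/-- The mean value of `|∑ c_k fix_k|`, where `fix_k` is the number of the embeddings of `F k` fixed by
`σ`, over the group of all families of permutations `(perm K (F k) σ)_k`. -/
noncomputable def meanAbs (K : Type) [Field K] {l : ℕ} (F : Fin l → Type) [∀ k, Field (F k)]
    [∀ k, Algebra K (F k)] (c : Fin l → ℝ) : ℝ :=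
  (Nat.card (MonoidHom.pi fun k => perm K (F k)).range : ℝ)⁻¹ *
    ∑ᶠ g : (MonoidHom.pi fun k => perm K (F k)).range,
      |∑ k, c k * (Nat.card {i : F k →ₐ[K] AlgebraicClosure K // g.1 k i = i} : ℝ)|

section
variable {K : Type} [Field K] [NumberField K] {n : ℕ} (X : Set (MvPolynomial (Fin n) (𝓞 K)))
  (d i N : ℕ)

/-- The orders over `F` and over `F ∩ M`, if both exist, are equal. -/
def GovernedBy (M F : IntermediateField K (AlgebraicClosure K)) : Prop :=
  ∀ m m' : ℤ, OrderOver X d i N F m →
    OrderOver X d i N (F ⊓ M : IntermediateField K (AlgebraicClosure K)) m' → m = m'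

/-- There is a finite Galois extension `M` of `K` such that the orders over `F` and `F ∩ M` are equal
for all number fields `F ⊇ K` for which `F ⊗_K F` is a product of at most `c` fields; and there is
such an extension `M` of degree at most `(c!)^(2 c N²)` for all number fields `F ⊇ K` of degree at
most `c`. -/
def OneFieldGoverns (c : ℕ) : Prop :=
  (∃ M : IntermediateField K (AlgebraicClosure K), FiniteDimensional K M ∧ IsGalois K M ∧
    ∀ F : IntermediateField K (AlgebraicClosure K),
      Nat.card (MaximalSpectrum (F ⊗[K] F)) ≤ c → GovernedBy X d i N M F) ∧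
  ∃ M : IntermediateField K (AlgebraicClosure K), FiniteDimensional K M ∧ IsGalois K M ∧
    Module.finrank K M ≤ c.factorial ^ (2 * c * N ^ 2) ∧
    ∀ F : IntermediateField K (AlgebraicClosure K),
      Module.finrank K F ≤ c → GovernedBy X d i N M F

/-- The inequality `|∑ c_k m_k| ≤ N · meanAbs` for the orders over number fields `F_1, …, F_l`, and
`|m - m'| ≤ 2 N δ` for the orders over `F` and over `K`, `δ` the proportion of derangements. -/
def NearRelations : Prop :=
  (∀ (l : ℕ) (F : Fin l → Type) [∀ k, Field (F k)] [∀ k, Algebra K (F k)] (c : Fin l → ℝ)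
    (m : Fin l → ℤ), (∀ k, OrderOver X d i N (F k) (m k)) →
    |∑ k, c k * m k| ≤ N * meanAbs K F c) ∧
  ∀ (F : Type) [Field F] [Algebra K F] (m m' : ℤ), OrderOver X d i N F m →
    OrderOver X d i N K m' → |(m : ℝ) - m'| ≤ 2 * N * derangements K F

/-- If `p` is a prime and `[K(ζ_p) : K] > 2 N`, then the orders over `K` and over every radical
extension `K(α)` of degree `p`, `α ^ p ∈ K`, are equal. -/
def RadicalExtensions : Prop :=
  ∀ (p : ℕ) (ζ α : AlgebraicClosure K) (a : K), p.Prime → IsPrimitiveRoot ζ p →
    2 * N < Module.finrank K K⟮ζ⟯ → α ^ p = algebraMap K (AlgebraicClosure K) a →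
    Module.finrank K K⟮α⟯ = p → ∀ m m' : ℤ, OrderOver X d i N K⟮α⟯ m →
    OrderOver X d i N K m' → m = m'

open Classical in
/-- The order over the field `M`, `K ⊆ M ⊆ L`, expected from the orders over the Young subfields:
the order over `L` if `M` contains `K(√disc F)`, and the order over `K` if not. -/
noncomputable def expected (F : Type) [Field F] [NumberField F] [Algebra K F]
    (m : Setoid (F →ₐ[K] AlgebraicClosure K) → ℤ)
    (M : IntermediateField K (AlgebraicClosure K)) : ℤ :=
  if quadField K F ≤ M then m ⊥ else m ⊤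

/-- Let `F/K` be an extension of degree at least `n₀` such that all permutations of the embeddings of
`F` are given by the absolute Galois group of `K`.  Suppose that the `L`-functions over all Young
subfields of the closure `L` have continuations, and let `m r` be the order for the Young subfield
of `r`.  Then for every field `M` between `K` and `L` the `L`-function is different from zero at
`i/2 + 1 + ε` for small `ε > 0`, its size tends to `-k` for the expected order `k`, and if it has a
continuation, then its order is `k`.  Moreover `|m ⊤| + |m ⊥ - m ⊤| ≤ N`. -/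
def SymmetricFields (n₀ : ℕ) : Prop :=
  ∀ (F : Type) [Field F] [NumberField F] [Algebra K F], Function.Surjective (perm K F) →
    n₀ ≤ Module.finrank K F → ∀ m : Setoid (F →ₐ[K] AlgebraicClosure K) → ℤ,
    (∀ r, OrderOver X d i N (youngField K F r) (m r)) →
    (∀ (M : IntermediateField K (AlgebraicClosure K)) [NumberField M], M ≤ closure K F →
      ∀ B : HeightOneSpectrum (𝓞 M) → ℂ[X], IsEulerSystem X d i N B →
      (∀ᶠ ε : ℝ in 𝓝[>] 0, LFun B ((i : ℂ) / 2 + 1 + ε) ≠ 0) ∧
      Tendsto (size i B) (𝓝[>] 0) (𝓝 (-(expected F m M : ℝ))) ∧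
      ∀ k : ℤ, HasOrder i B k → k = expected F m M) ∧
    |m ⊤| + |m ⊥ - m ⊤| ≤ N

end

end Pool.Agent.W353.EF
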